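import Pool.Agent.Helper16.Cusp.F0

/-!
# MP_c70db9_ag, packet C7a (handoff 454): the first special step (everything except `lev1`)
-/

namespace Pool.Agent.Helper16.Cusp.H3

open MvPolynomial

/-- the quartic as an expression in a commutative ring -/
def qf0 {A : Type*} [CommRing A] (x y z : A) : A :=
  144 * z ^ 4 - 1104 * (y * z ^ 3) + 1012 * (y ^ 2 * z ^ 2) - 328 * (y ^ 3 * z)
    + 36 * y ^ 4 + 624 * (x * z ^ 3) - 1424 * (x * y * z ^ 2)
    + 516 * (x * y ^ 2 * z) - 36 * (x * y ^ 3) + 1204 * (x ^ 2 * z ^ 2)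
    - 2748 * (x ^ 2 * y * z) - 351 * (x ^ 2 * y ^ 2) + 1480 * (x ^ 3 * z)
    + 180 * (x ^ 3 * y) + 900 * x ^ 4

/-- the divided difference in the last variable -/
def qg0 {A : Type*} [CommRing A] (x y z w : A) : A :=
  144 * (z ^ 3 + z ^ 2 * w + z * w ^ 2 + w ^ 3) + (624 * x - 1104 * y) * (z ^ 2 + z * w + w ^ 2)
    + (1012 * y ^ 2 - 1424 * (x * y) + 1204 * x ^ 2) * (z + w)
    + (516 * (x * y ^ 2) - 328 * y ^ 3 - 2748 * (x ^ 2 * y) + 1480 * x ^ 3)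

/-- the cofactor of degree 8 -/
def qb8 {A : Type*} [CommRing A] (p q : A) : A :=
  36 * p ^ 8 + 168 * (p ^ 7 * q) - 348 * (p ^ 6 * q ^ 2) + 1296 * (p ^ 5 * q ^ 3)
    - 3063 * (p ^ 4 * q ^ 4) + 3648 * (p ^ 3 * q ^ 5) - 2196 * (p ^ 2 * q ^ 6)
    + 600 * (p * q ^ 7) - 60 * q ^ 8

lemma qf0_sub {A : Type*} [CommRing A] (x y z w : A) :
    qf0 x y z = (z - w) * qg0 x y z w + qf0 x y w := by
  unfold qf0 qg0
  ring

lemma qf0_curve {A : Type*} [CommRing A] (p q : A) :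
    qf0 (p ^ 3) (q ^ 3) ((q - p) ^ 3) = (q - 2 * p) ^ 2 * ((p + 2 * q) ^ 2 * qb8 p q) := by
  unfold qf0 qb8
  ring

/-- the factorization used for both lines -/
lemma qf0_line {A : Type*} [CommRing A] (p q z r : A) (hr : r ^ 3 = 1) :
    qf0 (p ^ 3) (q ^ 3) (z ^ 3) = (z - r * (q - p)) *
      ((z ^ 2 + z * (r * (q - p)) + (r * (q - p)) ^ 2) *
        qg0 (p ^ 3) (q ^ 3) (z ^ 3) ((q - p) ^ 3)) +
      (q - 2 * p) ^ 2 * ((p + 2 * q) ^ 2 * qb8 p q) := by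
  rw [← qf0_curve, qf0_sub (p ^ 3) (q ^ 3) (z ^ 3) ((q - p) ^ 3)]
  have h : (q - p) ^ 3 = (r * (q - p)) ^ 3 := by
    rw [mul_pow, hr, one_mul]
  have h2 : z ^ 3 - (q - p) ^ 3 = (z - r * (q - p)) *
      (z ^ 2 + z * (r * (q - p)) + (r * (q - p)) ^ 2) := by
    rw [h]; ring
  rw [h2]
  ring

lemma om3 : om ^ 3 = 1 := (Complex.isPrimitiveRoot_exp 3 (by norm_num)).pow_eq_one

lemma om_ne_one' : om ≠ 1 := (Complex.isPrimitiveRoot_exp 3 (by norm_num)).ne_one (by norm_num)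

lemma om_sum0 : om ^ 2 + om + 1 = 0 := by
  have h := om3
  have h1 : (om - 1) * (om ^ 2 + om + 1) = 0 := by
    linear_combination h
  rcases mul_eq_zero.1 h1 with h2 | h2
  · exact absurd (sub_eq_zero.1 h2) om_ne_one'
  · exact h2

lemma om_norm : ‖om‖ = 1 := by
  have h := congrArg norm om3
  rw [norm_pow, norm_one] at h
  exact (pow_eq_one_iff_of_nonneg (norm_nonneg _) (by norm_num)).1 h

lemma one_sub_om2_ne : (1 : ℂ) - om ^ 2 ≠ 0 := by
  intro h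
  have h1 := om_sum0
  have h2 := om3
  have h3 : om ^ 2 = 1 := by linear_combination -h
  have h4 : om = -2 := by linear_combination h1 - h3
  rw [h4] at h3
  norm_num at h3

lemma F0_eq : F0 = qf0 (X 0 : R) (X 1) (X 2) := rfl

lemma pull_F0 (lam mu : ℂ) : pull lam mu F0 =
    qf0 (lin lam mu 0 ^ 3) (lin lam mu 1 ^ 3) (lin lam mu 2 ^ 3) := by
  unfold pull F0 qf0
  simp only [map_add, map_sub, map_mul, map_pow, aeval_X, map_ofNat]

lemma eval_F0 (v : V) : eval v F0 = qf0 (v 0) (v 1) (v 2) := by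
  unfold F0 qf0
  simp only [map_add, map_sub, map_mul, map_pow, eval_X, map_ofNat]

/-- the point with `(ξ, η, ζ)` given -/
noncomputable def pt (lam a b c : ℂ) : V :=
  ![(a - b) / (1 - om ^ 2), om ^ 2 * (a - (a - b) / (1 - om ^ 2)),
    c - lam * ((a - b) / (1 - om ^ 2))]

lemma lin0_eval (lam mu : ℂ) (v : V) : eval v (lin lam mu 0) = v 0 + om * v 1 := by
  simp [lin]

lemma lin1_eval (lam mu : ℂ) (v : V) : eval v (lin lam mu 1) = om ^ 2 * v 0 + om * v 1 := by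
  simp [lin]

lemma lin2_eval (lam mu : ℂ) (v : V) : eval v (lin lam mu 2) = v 2 + lam * v 0 + mu * v 1 := by
  simp [lin]

lemma pt0 (lam a b c : ℂ) : eval (pt lam a b c) (lin lam 0 0) = a := by
  rw [lin0_eval]
  simp only [pt, Matrix.cons_val_zero, Matrix.cons_val_one]
  linear_combination (a - (a - b) / (1 - om ^ 2)) * om3

lemma pt1 (lam a b c : ℂ) : eval (pt lam a b c) (lin lam 0 1) = b := by
  rw [lin1_eval]
  simp only [pt, Matrix.cons_val_zero, Matrix.cons_val_one]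
  have h := one_sub_om2_ne
  have e : (a - b) / (1 - om ^ 2) * (1 - om ^ 2) = a - b := div_mul_cancel₀ _ h
  linear_combination (a - (a - b) / (1 - om ^ 2)) * om3 - e

lemma pt2 (lam a b c : ℂ) : eval (pt lam a b c) (lin lam 0 2) = c := by
  rw [lin2_eval]
  simp [pt]

lemma pt_zero (lam a b c : ℂ) : pt lam a b c 0 = (a - b) / (1 - om ^ 2) := rfl

lemma pt_two (lam a b c : ℂ) : pt lam a b c 2 = c - lam * ((a - b) / (1 - om ^ 2)) := rfl

lemma pt_zero_ne {lam a b c : ℂ} (h : a ≠ b) : pt lam a b c 0 ≠ 0 := by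
  rw [pt_zero]
  exact div_ne_zero (sub_ne_zero.2 h) one_sub_om2_ne

/-- `ξ³ - η³` in terms of the coordinates -/
lemma cube_sub (v : V) : (v 0 + om * v 1) ^ 3 - (om ^ 2 * v 0 + om * v 1) ^ 3 =
    3 * (om - om ^ 2) * (v 0 * v 1 * (v 0 - v 1)) := by
  linear_combination (v 0 ^ 3 * (-1 - om ^ 3) + 3 * v 0 ^ 2 * v 1 * (-om ^ 2) +
    3 * v 0 * v 1 ^ 2 * (-om)) * om3

lemma pt_one_ne {lam a b c : ℂ} (h : a ^ 3 ≠ b ^ 3) : pt lam a b c 1 ≠ 0 := by
  intro h0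
  have h1 := cube_sub (pt lam a b c)
  rw [← lin0_eval lam 0, ← lin1_eval lam 0, pt0, pt1, h0] at h1
  apply h
  linear_combination h1

lemma pt_diag_ne {lam a b c : ℂ} (h : a ^ 3 ≠ b ^ 3) : pt lam a b c 0 ≠ pt lam a b c 1 := by
  intro h0
  have h1 := cube_sub (pt lam a b c)
  rw [← lin0_eval lam 0, ← lin1_eval lam 0, pt0, pt1, h0] at h1
  apply h
  linear_combination h1

/-- the special parameter -/
lemma line_eq (r c : ℂ) (h : r * (om ^ 2 - 1) = om ^ 2 - 1 + c) :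
    lin (om ^ 2 - 1) 0 2 - C r * (lin (om ^ 2 - 1) 0 1 - lin (om ^ 2 - 1) 0 0) =
      X 2 - C c * X 0 := by
  simp only [lin, Matrix.cons_val_zero, Matrix.cons_val_one, Matrix.cons_val]
  have e : (C r * (C (om ^ 2) - 1) : R) = C (om ^ 2) - 1 + C c := by
    rw [← C_1, ← C_sub, ← C_mul, h, C_add]
  have e2 : (C (om ^ 2 - 1) : R) = C (om ^ 2) - 1 := by rw [C_sub, C_1]
  rw [e2, C_0]
  linear_combination (-(X 0 : R)) * e

lemma F1_eq (r c : ℂ) (hr : r ^ 3 = 1) (h : r * (om ^ 2 - 1) = om ^ 2 - 1 + c) :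
    F1 = (X 2 - C c * X 0) *
      ((lin (om ^ 2 - 1) 0 2 ^ 2 + lin (om ^ 2 - 1) 0 2 *
        (C r * (lin (om ^ 2 - 1) 0 1 - lin (om ^ 2 - 1) 0 0)) +
        (C r * (lin (om ^ 2 - 1) 0 1 - lin (om ^ 2 - 1) 0 0)) ^ 2) *
        qg0 (lin (om ^ 2 - 1) 0 0 ^ 3) (lin (om ^ 2 - 1) 0 1 ^ 3) (lin (om ^ 2 - 1) 0 2 ^ 3)
          ((lin (om ^ 2 - 1) 0 1 - lin (om ^ 2 - 1) 0 0) ^ 3)) +
      (lin (om ^ 2 - 1) 0 1 - 2 * lin (om ^ 2 - 1) 0 0) ^ 2 *
        ((lin (om ^ 2 - 1) 0 0 + 2 * lin (om ^ 2 - 1) 0 1) ^ 2 *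
          qb8 (lin (om ^ 2 - 1) 0 0) (lin (om ^ 2 - 1) 0 1)) := by
  have hr' : (C r : R) ^ 3 = 1 := by rw [← C_pow, hr, C_1]
  rw [← line_eq r c h]
  unfold F1
  rw [pull_F0]
  exact qf0_line _ _ _ _ hr'

lemma eval_qg0 (v : V) (x y z w : R) : eval v (qg0 x y z w) =
    qg0 (eval v x) (eval v y) (eval v z) (eval v w) := by
  unfold qg0
  simp only [map_add, map_sub, map_mul, map_pow, map_ofNat]

lemma eval_qb8 (v : V) (x y : R) : eval v (qb8 x y) = qb8 (eval v x) (eval v y) := by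
  unfold qb8
  simp only [map_add, map_sub, map_mul, map_pow, map_ofNat]

lemma dd_lin0 (lam mu : ℂ) (v u : V) : dd (lin lam mu 0) v u = u 0 + om * u 1 := by
  simp [dd, lin, Fin.sum_univ_three, pderiv_X, Pi.single_apply]
  ring

lemma dd_lin1 (lam mu : ℂ) (v u : V) : dd (lin lam mu 1) v u = om ^ 2 * u 0 + om * u 1 := by
  simp [dd, lin, Fin.sum_univ_three, pderiv_X, Pi.single_apply]
  ring

lemma dd_line (c : ℂ) (v u : V) : dd (X 2 - C c * X 0) v u = u 2 - c * u 0 := by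
  simp [dd, Fin.sum_univ_three, pderiv_X, Pi.single_apply]
  ring

lemma dd_add (a b : R) (v u : V) : dd (a + b) v u = dd a v u + dd b v u := by
  simp only [dd, map_add, mul_add, Finset.sum_add_distrib]

lemma dd_sub (a b : R) (v u : V) : dd (a - b) v u = dd a v u - dd b v u := by
  simp only [dd, map_sub, mul_sub, Finset.sum_sub_distrib]

lemma dd_two_mul (a : R) (v u : V) : dd (2 * a) v u = 2 * dd a v u := by
  rw [two_mul, dd_add, two_mul]

lemma om_ne_zero : om ≠ 0 := by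
  intro h
  have := om3
  rw [h] at this
  norm_num at this

lemma line_zero (r c : ℂ) (h : r * (om ^ 2 - 1) = om ^ 2 - 1 + c) (a b : ℂ) :
    eval (pt (om ^ 2 - 1) a b (r * (b - a))) (X 2 - C c * X 0) = 0 := by
  rw [← line_eq r c h]
  simp only [map_sub, map_mul, eval_C, pt0, pt1, pt2]
  ring

/-- the tangency at `(ξ, η) = (1, 2)` -/
lemma tanA (r c : ℂ) (hr : r ^ 3 = 1) (h : r * (om ^ 2 - 1) = om ^ 2 - 1 + c) :
    TanT F1 (X 2 - C c * X 0) (pt (om ^ 2 - 1) 1 2 (r * (2 - 1))) := by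
  have hr0 : r ≠ 0 := by
    rintro rfl
    norm_num at hr
  refine ⟨_, _, _, F1_eq r c hr h, line_zero r c h 1 2, ?_, ?_, ?_, ![0, 1, 0], ?_, ?_⟩
  · simp only [map_sub, map_mul, map_ofNat, pt0, pt1]
    norm_num
  · simp only [map_sub, map_mul, map_add, map_pow, eval_C, eval_qg0, pt0, pt1, pt2]
    have e1 : (r * (2 - 1)) ^ 3 = 1 := by rw [mul_pow, hr]; norm_num
    rw [e1]
    unfold qg0
    have e2 : (r * (2 - 1)) ^ 2 + r * (2 - 1) * (r * (2 - 1)) + (r * (2 - 1)) ^ 2 =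
        3 * r ^ 2 := by ring
    rw [e2]
    norm_num
    exact hr0
  · simp only [map_add, map_mul, map_pow, map_ofNat, eval_qb8, pt0, pt1]
    unfold qb8
    norm_num
  · rw [dd_line]
    simp
  · rw [dd_sub, dd_two_mul, dd_lin0, dd_lin1]
    simp only [Matrix.cons_val_zero, Matrix.cons_val_one]
    intro h0
    apply om_ne_zero
    linear_combination -h0

/-- the tangency at `(ξ, η) = (-2, 1)` -/
lemma tanB (r c : ℂ) (hr : r ^ 3 = 1) (h : r * (om ^ 2 - 1) = om ^ 2 - 1 + c) :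
    TanT F1 (X 2 - C c * X 0) (pt (om ^ 2 - 1) (-2) 1 (r * (1 - (-2)))) := by
  have hr0 : r ≠ 0 := by
    rintro rfl
    norm_num at hr
  have hF := F1_eq r c hr h
  have hF' : F1 = (X 2 - C c * X 0) *
      ((lin (om ^ 2 - 1) 0 2 ^ 2 + lin (om ^ 2 - 1) 0 2 *
        (C r * (lin (om ^ 2 - 1) 0 1 - lin (om ^ 2 - 1) 0 0)) +
        (C r * (lin (om ^ 2 - 1) 0 1 - lin (om ^ 2 - 1) 0 0)) ^ 2) *
        qg0 (lin (om ^ 2 - 1) 0 0 ^ 3) (lin (om ^ 2 - 1) 0 1 ^ 3) (lin (om ^ 2 - 1) 0 2 ^ 3)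
          ((lin (om ^ 2 - 1) 0 1 - lin (om ^ 2 - 1) 0 0) ^ 3)) +
      (lin (om ^ 2 - 1) 0 0 + 2 * lin (om ^ 2 - 1) 0 1) ^ 2 *
        ((lin (om ^ 2 - 1) 0 1 - 2 * lin (om ^ 2 - 1) 0 0) ^ 2 *
          qb8 (lin (om ^ 2 - 1) 0 0) (lin (om ^ 2 - 1) 0 1)) := by
    rw [hF]
    ring
  refine ⟨_, _, _, hF', line_zero r c h (-2) 1, ?_, ?_, ?_, ![0, 1, 0], ?_, ?_⟩
  · simp only [map_add, map_mul, map_ofNat, pt0, pt1]
    norm_num
  · simp only [map_sub, map_mul, map_add, map_pow, eval_C, eval_qg0, pt0, pt1, pt2]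
    have e1 : (r * (1 - (-2))) ^ 3 = 27 := by rw [mul_pow, hr]; norm_num
    rw [e1]
    unfold qg0
    have e2 : (r * (1 - (-2))) ^ 2 + r * (1 - (-2)) * (r * (1 - (-2))) + (r * (1 - (-2))) ^ 2 =
        27 * r ^ 2 := by ring
    rw [e2]
    norm_num
    exact hr0
  · simp only [map_sub, map_mul, map_pow, map_ofNat, eval_qb8, pt0, pt1]
    unfold qb8
    norm_num
  · rw [dd_line]
    simp
  · rw [dd_add, dd_two_mul, dd_lin0, dd_lin1]
    simp only [Matrix.cons_val_zero, Matrix.cons_val_one]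
    intro h0
    apply om_ne_zero
    linear_combination h0 / 3

/-- the two points -/
noncomputable def pts (r : ℂ) : Fin 2 → V :=
  ![pt (om ^ 2 - 1) 1 2 (r * (2 - 1)), pt (om ^ 2 - 1) (-2) 1 (r * (1 - (-2)))]

lemma pts_inj (r : ℂ) : ProjInj (pts r) := by
  have key : ∀ (v w : V) (t : ℂ), v = t • w →
      eval v (lin (om ^ 2 - 1) 0 0) = t * eval w (lin (om ^ 2 - 1) 0 0) ∧
      eval v (lin (om ^ 2 - 1) 0 1) = t * eval w (lin (om ^ 2 - 1) 0 1) := by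
    rintro v w t rfl
    rw [lin0_eval, lin0_eval, lin1_eval, lin1_eval]
    simp only [Pi.smul_apply, smul_eq_mul]
    constructor <;> ring
  intro i j t h
  fin_cases i <;> fin_cases j
  · rfl
  · exfalso
    have h' := key _ _ t h
    simp only [pts, Fin.zero_eta, Fin.mk_one, Matrix.cons_val_zero, Matrix.cons_val_one, pt0,
      pt1] at h'
    obtain ⟨h1, h2⟩ := h'
    have h3 : t = 2 := by linear_combination -h2
    rw [h3] at h1
    norm_num at h1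
  · exfalso
    have h' := key _ _ t h
    simp only [pts, Fin.zero_eta, Fin.mk_one, Matrix.cons_val_zero, Matrix.cons_val_one, pt0,
      pt1] at h'
    obtain ⟨h1, h2⟩ := h'
    have h3 : t = -2 := by linear_combination -h1
    rw [h3] at h2
    norm_num at h2
  · rfl

theorem tz1 : TZ F1 2 Q1 := by
  have h : (1 : ℂ) * (om ^ 2 - 1) = om ^ 2 - 1 + 0 := by ring
  have e : (X 2 - C 0 * X 0 : R) = X 2 := by simp
  have hA := tanA 1 0 (by norm_num) h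
  have hB := tanB 1 0 (by norm_num) h
  have hlA := line_zero 1 0 h 1 2
  have hlB := line_zero 1 0 h (-2) 1
  rw [e] at hA hB hlA hlB
  rw [eval_X] at hlA hlB
  refine ⟨pts 1, pts_inj 1, ?_⟩
  intro i
  fin_cases i
  · have h0 : pt (om ^ 2 - 1) 1 2 (1 * (2 - 1)) 0 ≠ 0 := pt_zero_ne (by norm_num)
    have h1 : pt (om ^ 2 - 1) 1 2 (1 * (2 - 1)) 1 ≠ 0 := pt_one_ne (by norm_num)
    have h2 : pt (om ^ 2 - 1) 1 2 (1 * (2 - 1)) 0 ≠ pt (om ^ 2 - 1) 1 2 (1 * (2 - 1)) 1 :=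
      pt_diag_ne (by norm_num)
    refine ⟨hA, h0, h1, hlA, h2, ?_⟩
    show pt (om ^ 2 - 1) 1 2 (1 * (2 - 1)) 2 ≠ 3 * pt (om ^ 2 - 1) 1 2 (1 * (2 - 1)) 0
    rw [hlA]
    intro h1
    apply h0
    linear_combination -h1 / 3
  · have h0 : pt (om ^ 2 - 1) (-2) 1 (1 * (1 - (-2))) 0 ≠ 0 := pt_zero_ne (by norm_num)
    have h1 : pt (om ^ 2 - 1) (-2) 1 (1 * (1 - (-2))) 1 ≠ 0 := pt_one_ne (by norm_num)
    have h2 : pt (om ^ 2 - 1) (-2) 1 (1 * (1 - (-2))) 0 ≠ pt (om ^ 2 - 1) (-2) 1 (1 * (1 - (-2))) 1 :=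
      pt_diag_ne (by norm_num)
    refine ⟨hB, h0, h1, hlB, h2, ?_⟩
    show pt (om ^ 2 - 1) (-2) 1 (1 * (1 - (-2))) 2 ≠
      3 * pt (om ^ 2 - 1) (-2) 1 (1 * (1 - (-2))) 0
    rw [hlB]
    intro h1
    apply h0
    linear_combination -h1 / 3

theorem comp1 : ∃ c : Fin 2 → V, ProjInj c ∧ ∀ i, TanT F1 (X 2 - C 3 * X 0) (c i) ∧
    c i 0 ≠ 0 ∧ c i 1 ≠ 0 ∧ c i 2 ≠ 0 ∧ c i 0 ≠ c i 1 := by
  have h : om * (om ^ 2 - 1) = om ^ 2 - 1 + 3 := by
    linear_combination om3 - om_sum0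
  have hA := tanA om 3 om3 h
  have hB := tanB om 3 om3 h
  have hlA := line_zero om 3 h 1 2
  have hlB := line_zero om 3 h (-2) 1
  simp only [map_sub, map_mul, eval_C, eval_X] at hlA hlB
  refine ⟨pts om, pts_inj om, ?_⟩
  intro i
  fin_cases i
  · have h0 : pt (om ^ 2 - 1) 1 2 (om * (2 - 1)) 0 ≠ 0 := pt_zero_ne (by norm_num)
    have h1 : pt (om ^ 2 - 1) 1 2 (om * (2 - 1)) 1 ≠ 0 := pt_one_ne (by norm_num)
    have h2 : pt (om ^ 2 - 1) 1 2 (om * (2 - 1)) 0 ≠ pt (om ^ 2 - 1) 1 2 (om * (2 - 1)) 1 :=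
      pt_diag_ne (by norm_num)
    refine ⟨hA, h0, h1, ?_, h2⟩
    show pt (om ^ 2 - 1) 1 2 (om * (2 - 1)) 2 ≠ 0
    intro h1
    rw [h1] at hlA
    apply h0
    linear_combination -hlA / 3
  · have h0 : pt (om ^ 2 - 1) (-2) 1 (om * (1 - (-2))) 0 ≠ 0 := pt_zero_ne (by norm_num)
    have h1 : pt (om ^ 2 - 1) (-2) 1 (om * (1 - (-2))) 1 ≠ 0 := pt_one_ne (by norm_num)
    have h2 : pt (om ^ 2 - 1) (-2) 1 (om * (1 - (-2))) 0 ≠ pt (om ^ 2 - 1) (-2) 1 (om * (1 - (-2))) 1 :=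
      pt_diag_ne (by norm_num)
    refine ⟨hB, h0, h1, ?_, h2⟩
    show pt (om ^ 2 - 1) (-2) 1 (om * (1 - (-2))) 2 ≠ 0
    intro h1
    rw [h1] at hlB
    apply h0
    linear_combination -hlB / 3

lemma theta_sq : (om - om ^ 2) ^ 2 = -3 := by
  linear_combination (om ^ 2 - 3 * om + 3) * om_sum0

lemma special_ne : (84321 : ℂ) + 35640 * (om - om ^ 2) ≠ 0 := by
  intro h
  have h1 : (84321 : ℂ) ^ 2 = -3 * 35640 ^ 2 := by
    linear_combination (84321 - 35640 * (om - om ^ 2)) * h + 35640 ^ 2 * theta_sq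
  norm_num at h1

lemma qf0_special (θ : ℂ) (h : θ ^ 2 = -3) : qf0 (-1) (-1) (-3 * θ) = 84321 + 35640 * θ := by
  unfold qf0
  linear_combination (-27864 - 12960 * θ + 11664 * θ ^ 2) * h

lemma qf0_special' (θ : ℂ) (h : θ ^ 2 = -3) : qf0 1 1 (3 * θ) = 84321 + 35640 * θ := by
  unfold qf0
  linear_combination (-27864 - 12960 * θ + 11664 * θ ^ 2) * h

theorem eval_special : eval ![-1, -1, (om ^ 2 - 1 + 0) ^ 3] F0 ≠ 0 := by
  rw [eval_F0]
  simp only [Matrix.cons_val_zero, Matrix.cons_val_one, Matrix.cons_val]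
  have e : (om ^ 2 - 1 + 0) ^ 3 = -3 * (om - om ^ 2) := by
    linear_combination (om ^ 3 + 1 - 3 * om) * om3
  rw [e, qf0_special _ theta_sq]
  exact special_ne

theorem eval1 : eval ![-1, -1, -3] F1 ≠ 0 := by
  unfold F1
  rw [pull_F0]
  have e0 : eval ![-1, -1, -3] (lin (om ^ 2 - 1) 0 0) = om ^ 2 := by
    rw [lin0_eval]
    simp only [Matrix.cons_val_zero, Matrix.cons_val_one]
    linear_combination -om_sum0
  have e1 : eval ![-1, -1, -3] (lin (om ^ 2 - 1) 0 1) = 1 := by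
    rw [lin1_eval]
    simp only [Matrix.cons_val_zero, Matrix.cons_val_one]
    linear_combination -om_sum0
  have e2 : eval ![-1, -1, -3] (lin (om ^ 2 - 1) 0 2) = om - 1 := by
    rw [lin2_eval]
    simp only [Matrix.cons_val_zero, Matrix.cons_val_one, Matrix.cons_val]
    linear_combination -om_sum0
  have e : eval ![-1, -1, -3] (qf0 (lin (om ^ 2 - 1) 0 0 ^ 3) (lin (om ^ 2 - 1) 0 1 ^ 3)
      (lin (om ^ 2 - 1) 0 2 ^ 3)) = qf0 ((om ^ 2) ^ 3) (1 ^ 3) ((om - 1) ^ 3) := by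
    unfold qf0
    simp only [map_add, map_sub, map_mul, map_pow, map_ofNat, e0, e1, e2]
  rw [e]
  have e3 : (om ^ 2) ^ 3 = 1 := by
    linear_combination (om ^ 3 + 1) * om3
  have e4 : (om - 1) ^ 3 = 3 * (om - om ^ 2) := by
    linear_combination om3
  rw [e3, e4, one_pow, qf0_special' _ theta_sq]
  exact special_ne

/-- the special points are not on the two lines after the step -/
theorem hQ1 (v v' : V) (hv : Q0 v) (h : phi (om ^ 2 - 1) 0 v' = v) : v' 2 ≠ 0 ∧ Q1 v' := by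
  subst h
  have key : ∀ r c : ℂ, r ^ 3 = 1 → r * (om ^ 2 - 1) = om ^ 2 - 1 + c → v' 2 ≠ c * v' 0 := by
    intro r c hr h1 h2
    apply hv
    have hl : eval v' (lin (om ^ 2 - 1) 0 2) =
        r * (eval v' (lin (om ^ 2 - 1) 0 1) - eval v' (lin (om ^ 2 - 1) 0 0)) := by
      have h3 := congrArg (eval v') (line_eq r c h1)
      simp only [map_sub, map_mul, eval_C, eval_X] at h3
      rw [h2, sub_self] at h3
      linear_combination h3
    unfold phi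
    rw [hl]
    generalize eval v' (lin (om ^ 2 - 1) 0 0) = a
    generalize eval v' (lin (om ^ 2 - 1) 0 1) = b
    rw [mul_pow, hr]
    ring
  refine ⟨?_, ?_⟩
  · have := key 1 0 (by norm_num) (by ring)
    rwa [zero_mul] at this
  · exact key om 3 om3 (by linear_combination om3 - om_sum0)

end Pool.Agent.Helper16.Cusp.H3

namespace Pool.Agent.Helper16.Cusp

open MvPolynomial

theorem tz1 : TZ F1 2 Q1 := H3.tz1

theorem comp1 : ∃ c : Fin 2 → V, ProjInj c ∧ ∀ i, TanT F1 (X 2 - C 3 * X 0) (c i) ∧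
    c i 0 ≠ 0 ∧ c i 1 ≠ 0 ∧ c i 2 ≠ 0 ∧ c i 0 ≠ c i 1 := H3.comp1

theorem eval1 : eval ![-1, -1, -3] F1 ≠ 0 := H3.eval1

end Pool.Agent.Helper16.Cusp
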