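import Pool.Agent.Helper3.Cusp.C7a
import Pool.Agent.Helper98.Cusp.Step

/-! Level 1 of the tower (packet C7a of MP_c70db9_ag). -/

namespace Pool.Agent.Helper16.Cusp

open MvPolynomial

theorem lev1 (h0 : Lev F0 4 3 1 Q0) (z0 : TZ F0 2 Q0) : Lev F1 12 39 3 Q1 :=
  step h0 z0 H3.hQ1 H3.eval_special

end Pool.Agent.Helper16.Cusp
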